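import Mathlib
import Pool.Agent.H9.DC.Count

set_option autoImplicit false

/-!
# Convex `d`-polytopes with `d - 2` combinatorial flag orbits

The half cube (the convex hull of the vertices of the cube `[-1, 1]^d` with an even number of
coordinates `-1`) has, for `d ≥ 5`, exactly `d - 2` combinatorial flag orbits. So all pairs
`(k, k + 2)`, `k ≥ 3`, are attained.

Proof. The nonempty proper faces of the half cube are the simplices spanned by neighbours of a
missing vertex of the cube and the smaller half cubes. Along a flag the faces are simplices up to
some rank `t - 1`, `3 ≤ t ≤ d`, and then half cubes. Two flags with the same `t` are related by a signed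
permutation of the coordinates with an even number of sign changes. For `d ≥ 5` the simplices (also those
of dimension three) are distinguished from the half cubes by the order structure: they are the
faces contained in a facet any two vertices of which are joined by an edge. So `t` is an invariant.
-/

namespace Pool.Agent.Results.MP_7157e1_co.HalfCubePairs

open Pool.Agent.H9.DC

/-- For every `d ≥ 5` there is a convex `d`-polytope with exactly `d - 2` combinatorial flag orbits. -/
theorem result : ∀ d : ℕ, 5 ≤ d → ∃ Q : Set (E d), IsPolytope Q ∧ combOrbits Q = d - 2 :=
  fun d hd => ⟨P d, isPolytope_P (by omega), combOrbits_P hd⟩

end Pool.Agent.Results.MP_7157e1_co.HalfCubePairs
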